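import Mathlib
import Pool.Agent.H.MP_3b4555_co.A
set_option autoImplicit false

namespace Pool.Agent.Results.MP_3b4555_co.Half
open scoped ENNReal

/-- The zero-set `⋃ R_{a,b}` over `(a, b) ∈ I`. -/
def Z (I : Finset (ℕ × ℕ)) : Set (ℕ × ℕ) := {x | ∃ y ∈ I, x.1 < y.1 ∧ x.2 < y.2}

/-- `I` is a nonempty finite subset of `ℕ_{>0} ^ 2`. -/
def Valid (I : Finset (ℕ × ℕ)) : Prop := I.Nonempty ∧ ∀ y ∈ I, 1 ≤ y.1 ∧ 1 ≤ y.2

/-- the largest `s` with `R_{s,s} ⊆ Z`. -/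
noncomputable def side (I : Finset (ℕ × ℕ)) : ℕ := sSup {s | ∀ u < s, ∀ v < s, (u, v) ∈ Z I}

noncomputable def row (x : ℕ × ℕ) (A : Set (ℕ × ℕ)) : ℕ∞ := {i | (i, x.2) ∈ A}.encard

noncomputable def col (x : ℕ × ℕ) (A : Set (ℕ × ℕ)) : ℕ∞ := {j | (x.1, j) ∈ A}.encard

/-- the enhanced growth transformation. -/
def Ten (I : Finset (ℕ × ℕ)) (r c : ℕ → ℕ) (A : Set (ℕ × ℕ)) : Set (ℕ × ℕ) :=
  A ∪ {x | ¬ ∃ z ∈ Z I, row x A + r x.2 = z.1 ∧ col x A + c x.1 = z.2}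

def Enh (r : ℕ → ℕ) : Prop := Antitone r ∧ {j | r j ≠ 0}.Finite

def Spans (I : Finset (ℕ × ℕ)) (r c : ℕ → ℕ) : Prop := ⋃ t, (Ten I r c)^[t] ∅ = Set.univ

noncomputable def tau (I : Finset (ℕ × ℕ)) (r c : ℕ → ℕ) : ℕ∞ :=
  ⨅ (t : ℕ) (_ : 1 ≤ t ∧ (Ten I r c)^[t] ∅ = Set.univ), (t : ℕ∞)

noncomputable def mu (I : Finset (ℕ × ℕ)) : ℕ∞ :=
  ⨆ (r : ℕ → ℕ) (c : ℕ → ℕ) (_ : Enh r ∧ Enh c ∧ Spans I r c), tau I r c

noncomputable def alphaMin : ℝ :=
  sInf {α : ℝ | 0 < α ∧ ⨅ (I : Finset (ℕ × ℕ)) (_ : Valid I), (mu I : ℝ≥0∞) / (side I : ℝ≥0∞) ^ α = 0}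

def In (I : Finset (ℕ × ℕ)) (u v : ℕ∞) : Prop := ∃ y ∈ I, u < y.1 ∧ v < y.2

theorem In.mono {I : Finset (ℕ × ℕ)} {u v u' v' : ℕ∞} (h : In I u v) (h1 : u' ≤ u) (h2 : v' ≤ v) :
    In I u' v' := by
  obtain ⟨y, hy, a, b⟩ := h
  exact ⟨y, hy, h1.trans_lt a, h2.trans_lt b⟩

theorem in_coe {I : Finset (ℕ × ℕ)} {u v : ℕ} : In I u v ↔ (u, v) ∈ Z I := by
  simp [In, Z]

theorem mem_Ten {I : Finset (ℕ × ℕ)} {r c : ℕ → ℕ} {A : Set (ℕ × ℕ)} {x : ℕ × ℕ} :
    x ∈ Ten I r c A ↔ x ∈ A ∨ ¬ In I (row x A + r x.2) (col x A + c x.1) := by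
  refine or_congr_right (not_congr ⟨?_, ?_⟩)
  · rintro ⟨z, hz, e1, e2⟩
    rw [e1, e2]
    exact in_coe.2 hz
  · rintro ⟨y, hy, h1, h2⟩
    obtain ⟨u, hu⟩ := ENat.ne_top_iff_exists.1 (ne_top_of_lt h1)
    obtain ⟨v, hv⟩ := ENat.ne_top_iff_exists.1 (ne_top_of_lt h2)
    exact ⟨(u, v), in_coe.1 ⟨y, hy, hu ▸ h1, hv ▸ h2⟩, hu.symm, hv.symm⟩

def St (I : Finset (ℕ × ℕ)) (r c : ℕ → ℕ) (t : ℕ) : Set (ℕ × ℕ) := (Ten I r c)^[t] ∅

theorem St_succ (I : Finset (ℕ × ℕ)) (r c : ℕ → ℕ) (t : ℕ) :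
    St I r c (t + 1) = Ten I r c (St I r c t) := Function.iterate_succ_apply' _ _ _

theorem St_mono (I : Finset (ℕ × ℕ)) (r c : ℕ → ℕ) : Monotone (St I r c) :=
  monotone_nat_of_le_succ fun t => by
    rw [St_succ]
    exact Set.subset_union_left

theorem mem_St {I : Finset (ℕ × ℕ)} {r c : ℕ → ℕ} (t : ℕ) (x : ℕ × ℕ) : x ∈ St I r c (t + 1) ↔
    ¬ In I (row x (St I r c t) + r x.2) (col x (St I r c t) + c x.1) := by
  induction t with
  | zero => simp [mem_Ten, St]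
  | succ t ih =>
    rw [St_succ, mem_Ten, or_iff_right_iff_imp, ih]
    have := St_mono I r c (Nat.le_succ t)
    refine fun h1 h2 => h1 (h2.mono (add_le_add_left ?_ _) (add_le_add_left ?_ _))
    · exact Set.encard_le_encard (s := {i | (i, x.2) ∈ _}) fun i hi => this hi
    · exact Set.encard_le_encard (s := {i | (x.1, i) ∈ _}) fun i hi => this hi

theorem encard_Iio (i : ℕ) : (Set.Iio i).encard = i := by
  rw [← Finset.coe_range, Set.encard_coe_eq_coe_finsetCard, Finset.card_range]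

theorem spans {I : Finset (ℕ × ℕ)} {r c : ℕ → ℕ} (h : ∀ i j, (r j + i, c i + j) ∉ Z I) :
    Spans I r c := by
  have key : ∀ n i j, i + j = n → (i, j) ∈ St I r c (n + 1) := by
    intro n
    induction n using Nat.strong_induction_on with
    | _ n ih =>
      intro i j e
      rw [mem_St]
      refine fun hz => h i j (in_coe.1 (hz.mono ?_ ?_))
      · rw [add_comm, Nat.cast_add, ← encard_Iio i]
        refine add_le_add_left (Set.encard_le_encard fun x hx => ?_) _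
        have : x < i := hx
        exact St_mono I r c (show x + j + 1 ≤ n by omega) (ih _ (by omega) x j rfl)
      · rw [add_comm, Nat.cast_add, ← encard_Iio j]
        refine add_le_add_left (Set.encard_le_encard fun x hx => ?_) _
        have : x < j := hx
        exact St_mono I r c (show i + x + 1 ≤ n by omega) (ih _ (by omega) i x rfl)
  exact Set.eq_univ_of_forall fun x => Set.mem_iUnion.2 ⟨_, key _ x.1 x.2 rfl⟩

theorem slow {I : Finset (ℕ × ℕ)} {r c : ℕ → ℕ} (hr : Enh r) (hc : Enh c)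
    (h : ∀ i j, (r j + i, c i + j) ∉ Z I) (D : ℕ) (X Y : ℕ → ℕ) (hX : Monotone X) (hY : Monotone Y)
    (hs : ∀ t < D, ∀ i j, X (t + 1) ≤ i → Y (t + 1) ≤ j → (r j + X t, c i + Y t) ∈ Z I) :
    ((D + 1 : ℕ) : ℕ∞) ≤ mu I := by
  have key : ∀ t ≤ D, ∀ x ∈ St I r c t, x.1 < X t ∨ x.2 < Y t := by
    intro t
    induction t with
    | zero => simp [St]
    | succ t ih =>
      intro ht x hx
      by_contra hn
      rw [not_or, not_lt, not_lt] at hn
      have h1 := hX (Nat.le_succ t)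
      have h2 := hY (Nat.le_succ t)
      rw [Nat.succ_eq_add_one] at h1 h2
      refine (mem_St t x).1 hx ((in_coe.2 (hs t ht _ _ hn.1 hn.2)).mono ?_ ?_)
      · rw [add_comm (r _), Nat.cast_add, ← encard_Iio (X t)]
        refine add_le_add_left (Set.encard_le_encard fun i hi => ?_) _
        exact (ih (by omega) _ hi).resolve_right (by simp only; omega)
      · rw [add_comm (c _), Nat.cast_add, ← encard_Iio (Y t)]
        refine add_le_add_left (Set.encard_le_encard fun i hi => ?_) _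
        exact (ih (by omega) _ hi).resolve_left (by simp only; omega)
  refine le_iSup_of_le r (le_iSup_of_le c (le_iSup_of_le ⟨hr, hc, spans h⟩ ?_))
  refine le_iInf₂ fun t ht => ?_
  by_contra hlt
  have h1 : t ≤ D := by
    have : t < D + 1 := by exact_mod_cast not_le.1 hlt
    omega
  have := key t h1 (X t, Y t) (ht.2 ▸ Set.mem_univ _ : _ ∈ (Ten I r c)^[t] ∅)
  simp at this

def big (I : Finset (ℕ × ℕ)) : ℕ := I.sup fun y => y.1 + y.2

theorem lt_big {I : Finset (ℕ × ℕ)} {u v : ℕ} (h : (u, v) ∈ Z I) : u + v < big I := by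
  obtain ⟨y, hy, h1, h2⟩ := h
  have : y.1 + y.2 ≤ big I := Finset.le_sup (f := fun y : ℕ × ℕ => y.1 + y.2) hy
  simp only at h1 h2
  omega

theorem Z_mono {I : Finset (ℕ × ℕ)} {u v u' v' : ℕ} (h : (u, v) ∈ Z I) (h1 : u' ≤ u) (h2 : v' ≤ v) :
    (u', v') ∈ Z I := by
  obtain ⟨y, hy, a, b⟩ := h
  exact ⟨y, hy, h1.trans_lt a, h2.trans_lt b⟩

theorem side_bdd (I : Finset (ℕ × ℕ)) : BddAbove {s | ∀ u < s, ∀ v < s, (u, v) ∈ Z I} := by
  refine ⟨big I, fun s hs => ?_⟩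
  by_contra h
  have := lt_big (hs (big I) (not_le.1 h) (big I) (not_le.1 h))
  omega

theorem height (P : ℕ → ℕ → Prop) (M : ℕ) (hM : ∀ u v, P u v → u + v < M)
    (hm : ∀ u v u' v', P u v → u' ≤ u → v' ≤ v → P u' v') :
    ∃ f : ℕ → ℕ, Enh f ∧ ∀ u v, P u v ↔ v < f u := by
  classical
  have ex : ∀ u, ∃ v, ¬ P u v := fun u => ⟨M, fun h => by have := hM _ _ h; omega⟩
  have sp : ∀ u v, P u v ↔ v < Nat.find (ex u) := fun u v =>
    ⟨fun h => (Nat.lt_find_iff _ _).2 fun m hm' => not_not.2 (hm _ _ _ _ h le_rfl hm'),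
      fun h => not_not.1 (Nat.find_min _ h)⟩
  refine ⟨fun u => Nat.find (ex u), ⟨fun u u' h => ?_, (Set.finite_Iio M).subset fun u hu => ?_⟩, sp⟩
  · exact le_of_forall_lt fun v hv => (sp u v).1 (hm _ _ _ _ ((sp u' v).2 hv) h le_rfl)
  · have := hM _ _ ((sp u 0).2 (Nat.pos_of_ne_zero hu))
    exact this

theorem lower (I : Finset (ℕ × ℕ)) : ∃ d : ℕ, side I ≤ (d + 1) ^ 2 ∧ ((d + 1 : ℕ) : ℕ∞) ≤ mu I := by
  classical
  have hs : ∀ u < side I, ∀ v < side I, (u, v) ∈ Z I := Nat.sSup_mem ⟨0, by simp⟩ (side_bdd I)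
  obtain ⟨d, hd⟩ : ∃ d, d = (side I - 1).sqrt := ⟨_, rfl⟩
  have d1 : d ^ 2 ≤ side I - 1 := hd ▸ Nat.sqrt_le' _
  have d2 : side I - 1 < (d + 1) ^ 2 := hd ▸ Nat.lt_succ_sqrt' _
  refine ⟨d, by omega, ?_⟩
  obtain ⟨f, f1, f2⟩ := height (fun u v => (u, v) ∈ Z I) (big I) (fun u v => lt_big)
    (fun u v u' v' => Z_mono)
  obtain ⟨g, g1, g2⟩ := height (fun v u => (u, v) ∈ Z I) (big I)
    (fun u v h => add_comm v u ▸ lt_big h) (fun u v u' v' h h1 h2 => Z_mono h h2 h1)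
  have z : Enh fun _ => 0 := ⟨antitone_const, by simp⟩
  have m1 : Monotone fun t => d * t := fun a b h => Nat.mul_le_mul_left d h
  by_cases c1 : ∀ t < d, f (d * (t + 1)) < f (d * t)
  · refine slow z f1 (fun i j h => ?_) d _ (fun _ => 0) m1 monotone_const fun t ht i j hi _ => ?_
    · rw [f2, zero_add] at h
      omega
    · rw [f2, zero_add]
      exact (f1.1 hi).trans_lt (c1 t ht)
  by_cases c2 : ∀ t < d, g (d * (t + 1)) < g (d * t)
  · refine slow g1 z (fun i j h => ?_) d (fun _ => 0) _ monotone_const m1 fun t ht i j _ hj => ?_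
    · rw [g2, zero_add] at h
      omega
    · rw [g2, zero_add]
      exact (g1.1 hj).trans_lt (c2 t ht)
  push Not at c1 c2
  obtain ⟨t1, a1, a2⟩ := c1
  obtain ⟨t2, b1, b2⟩ := c2
  have e0 : d * d + 1 ≤ side I := by
    have : 0 < d ^ 2 := pow_pos (by omega) 2
    rw [← sq]
    omega
  have e1 : d * t1 + d < side I := by nlinarith
  have e2 : d * t2 + d < side I := by nlinarith
  rw [mul_add, mul_one] at a2 b2
  generalize d * t1 = u0 at *
  generalize d * t2 = v0 at *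
  obtain ⟨⟨x, y⟩, ⟨q1, q2, q3⟩, q4⟩ := Set.exists_max_image
    {z : ℕ × ℕ | z ∈ Z I ∧ u0 ≤ z.1 ∧ v0 ≤ z.2} (fun z => z.1 + z.2)
    (((Set.finite_Iio (big I)).prod (Set.finite_Iio (big I))).subset fun z hz => by
      have := lt_big hz.1
      exact ⟨show z.1 < _ by omega, show z.2 < _ by omega⟩)
    ⟨(u0, v0), hs _ (by omega) _ (by omega), le_rfl, le_rfl⟩
  simp only at q2 q3
  have x1 : u0 + d ≤ x := by
    by_contra h
    have h1 := ((f2 _ _).1 q1).trans_le ((f1.1 q2).trans a2)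
    have := q4 (u0 + d, y) ⟨(f2 _ _).2 h1, by simp, q3⟩
    simp only at this
    omega
  have y1 : v0 + d ≤ y := by
    by_contra h
    have h1 := ((g2 _ _).1 q1).trans_le ((g1.1 q3).trans b2)
    have := q4 (x, v0 + d) ⟨(g2 _ _).2 h1, q2, by simp⟩
    simp only at this
    omega
  have en : ∀ w, Enh fun j => if j < w then big I + d + 1 else d + 1 + w - j := by
    intro w
    refine ⟨fun a b h => ?_, (Set.finite_Iio (d + 1 + w)).subset fun j hj => ?_⟩
    · simp only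
      split_ifs <;> omega
    · simp only [Set.mem_ofPred_eq, Set.mem_Iio] at hj ⊢
      split_ifs at hj <;> omega
  refine slow (en (y - d)) (en (x - d)) (fun i j h => ?_) d (fun t => x - d + t)
    (fun t => y - d + t) (fun a b h => by simpa using h) (fun a b h => by simpa using h)
    fun t ht i j hi hj => ?_
  · have h1 := lt_big h
    have h2 := fun h3 h4 => q4 _ ⟨h, h3, h4⟩
    simp only at h2
    split_ifs at h1 h2 <;> omega
  · refine Z_mono q1 ?_ ?_ <;> split_ifs <;> omega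

open Pool.Agent.H.MP_3b4555_co

def I0 (k : ℕ) : Finset (ℕ × ℕ) := (Finset.range (2 * k)).image fun x => (a k (x + 1), a k (2 * k - x))

theorem in_I0 {k : ℕ} {u v : ℕ∞} : In (I0 k) u v ↔ lev k u + lev k v < 2 * k := by
  simp only [In, I0, Finset.mem_image, Finset.mem_range]
  constructor
  · rintro ⟨_, ⟨x, hx, rfl⟩, h1, h2⟩
    have := mt (le_lev (u := u) (show x + 1 ≤ 2 * k by omega)).1 (not_le.2 h1)
    have := mt (le_lev (u := v) (show 2 * k - x ≤ 2 * k by omega)).1 (not_le.2 h2)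
    omega
  · intro h
    exact ⟨_, ⟨lev k u, by omega, rfl⟩,
      not_le.1 (mt (le_lev (show lev k u + 1 ≤ 2 * k by omega)).2 (by omega)),
      not_le.1 (mt (le_lev (show 2 * k - lev k u ≤ 2 * k by omega)).2 (by omega))⟩

theorem lower_mem {S : Set ℕ} (hS : ∀ a ∈ S, ∀ b ≤ a, b ∈ S) (i : ℕ) :
    (i : ℕ∞) < S.encard ↔ i ∈ S := by
  constructor
  · intro h
    by_contra hi
    have : S ⊆ Set.Iio i := fun x hx => not_le.1 fun h1 => hi (hS x hx i h1)
    exact absurd ((Set.encard_le_encard this).trans_eq (encard_Iio i)) (not_le.2 h)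
  · intro h
    have : Set.Iio (i + 1) ⊆ S := fun x hx => hS i h x (Nat.lt_succ_iff.1 hx)
    refine lt_of_lt_of_le ?_ ((encard_Iio (i + 1)).symm.trans_le (Set.encard_le_encard this))
    exact_mod_cast Nat.lt_succ_self i

theorem young {I : Finset (ℕ × ℕ)} {r c : ℕ → ℕ} (hr : Antitone r) (hc : Antitone c) (t : ℕ) :
    ∀ i j i' j', i' ≤ i → j' ≤ j → (i, j) ∈ St I r c t → (i', j') ∈ St I r c t := by
  induction t with
  | zero => simp [St]
  | succ t ih =>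
    intro i j i' j' hi hj
    rw [mem_St, mem_St]
    exact fun h1 h2 => h1 (h2.mono
      (add_le_add (Set.encard_le_encard fun x hx => ih _ _ _ _ le_rfl hj hx)
        (by exact_mod_cast hr hj))
      (add_le_add (Set.encard_le_encard fun x hx => ih _ _ _ _ hi le_rfl hx)
        (by exact_mod_cast hc hi)))

theorem upper (k : ℕ) : mu (I0 k) ≤ (7 * k + 4 : ℕ) := by
  refine iSup_le fun r => iSup_le fun c => iSup_le fun ⟨hr, hc, hs⟩ => ?_
  refine iInf₂_le_of_le (7 * k + 4) ⟨by omega, Set.eq_univ_of_forall fun x => ?_⟩ le_rfl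
  have hy := young (I := I0 k) hr.1 hc.1
  have l1 : ∀ t j (i : ℕ), (i : ℕ∞) < {i | (i, j) ∈ St (I0 k) r c t}.encard ↔
      (i, j) ∈ St (I0 k) r c t := fun t j i =>
    lower_mem (fun a ha b hb => hy t _ _ _ _ hb le_rfl ha) i
  have l2 : ∀ t j (i : ℕ), (i : ℕ∞) < {i | (j, i) ∈ St (I0 k) r c t}.encard ↔
      (j, i) ∈ St (I0 k) r c t := fun t j i =>
    lower_mem (fun a ha b hb => hy t _ _ _ _ le_rfl hb ha) i
  have hs' : ∀ x, ∃ t, x ∈ St (I0 k) r c t := fun x =>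
    Set.mem_iUnion.1 (hs.symm ▸ Set.mem_univ x : x ∈ ⋃ t, (Ten (I0 k) r c)^[t] ∅)
  refine (l1 _ x.2 x.1).1 (time_le (k := k) (fun s => if s then r else c)
    (fun s t j => if s then {i | (i, j) ∈ St (I0 k) r c t}.encard
      else {i | (j, i) ∈ St (I0 k) r c t}.encard) ?_ ?_ ?_ ?_ true x.2 x.1)
  · intro s j
    cases s <;> simp [St]
  · intro s t j
    have := St_mono (I0 k) r c (Nat.le_succ t)
    cases s
    · exact Set.encard_le_encard fun i hi => this hi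
    · exact Set.encard_le_encard fun i hi => this hi
  · intro s t j i
    cases s
    · exact (l2 _ j i).trans ((mem_St t _).trans (by rw [in_I0, not_lt, add_comm]; rfl))
    · exact (l1 _ j i).trans ((mem_St t _).trans (by rw [in_I0, not_lt]; rfl))
  · intro s j i
    cases s
    · obtain ⟨t, ht⟩ := hs' (j, i)
      exact ⟨t, (l2 t j i).2 ht⟩
    · obtain ⟨t, ht⟩ := hs' (i, j)
      exact ⟨t, (l1 t j i).2 ht⟩

theorem side_I0 {k : ℕ} (hk : 0 < k) : Valid (I0 k) ∧ k * k ≤ side (I0 k) := by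
  have h1 : 1 ≤ a k 1 := by simp [a, show 1 ≤ k from hk]
  refine ⟨⟨Finset.Nonempty.image ⟨0, Finset.mem_range.2 (by omega)⟩ _, fun y hy => ?_⟩,
    le_csSup (side_bdd _) fun u hu v hv => ⟨_, Finset.mem_image.2
      ⟨k - 1, Finset.mem_range.2 (by omega), rfl⟩, ?_, ?_⟩⟩
  · obtain ⟨x, hx, rfl⟩ := Finset.mem_image.1 hy
    have := Finset.mem_range.1 hx
    exact ⟨h1.trans (a_mono k (by omega)), h1.trans (a_mono k (by omega))⟩
  · have := a_mono k (show k ≤ k - 1 + 1 by omega)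
    simp only [a, le_refl, if_true] at this ⊢
    omega
  · have := a_mono k (show k ≤ 2 * k - (k - 1) by omega)
    simp only [a, le_refl, if_true] at this ⊢
    omega

theorem result : alphaMin = 1 / 2 := by
  have big : ∀ α : ℝ, 1 / 2 < α → α ∈ {α : ℝ | 0 < α ∧ ⨅ (I : Finset (ℕ × ℕ)) (_ : Valid I),
      (mu I : ℝ≥0∞) / (side I : ℝ≥0∞) ^ α = 0} := by
    intro α hα
    refine ⟨by linarith, le_antisymm (ENNReal.le_of_forall_pos_le_add fun ε hε _ => ?_) bot_le⟩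
    have hε' : (0 : ℝ) < ε := hε
    have h1 := ((tendsto_rpow_atTop (show 0 < 2 * α - 1 by linarith)).comp
      tendsto_natCast_atTop_atTop).eventually_ge_atTop (11 / ε)
    obtain ⟨k, k1, k2⟩ := (h1.and (Filter.eventually_gt_atTop 0)).exists
    obtain ⟨v1, v2⟩ := side_I0 k2
    refine (iInf₂_le _ v1).trans ?_
    rw [zero_add]
    refine ENNReal.div_le_of_le_mul ?_
    have k0 : (1 : ℝ) ≤ k := by exact_mod_cast k2
    have h2 : ((7 * k + 4 : ℕ) : ℝ) ≤ ε * (side (I0 k) : ℝ) ^ α := by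
      have h3 : ((k : ℝ) ^ (2 : ℝ)) ^ α ≤ (side (I0 k) : ℝ) ^ α :=
        Real.rpow_le_rpow (by positivity) (by rw [Real.rpow_two, sq]; exact_mod_cast v2) (by linarith)
      rw [← Real.rpow_mul (by positivity), show 2 * α = 2 * α - 1 + 1 by ring,
        Real.rpow_add (by positivity), Real.rpow_one] at h3
      simp only [Function.comp] at k1
      rw [div_le_iff₀ hε'] at k1
      push_cast
      nlinarith [mul_le_mul_of_nonneg_left h3 hε'.le, mul_le_mul_of_nonneg_left k1 (by positivity : (0 : ℝ) ≤ k)]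
    calc (mu (I0 k) : ℝ≥0∞) ≤ ((7 * k + 4 : ℕ) : ℕ∞) := ENat.toENNReal_le.2 (upper k)
      _ = ENNReal.ofReal ((7 * k + 4 : ℕ) : ℝ) := by rw [ENat.toENNReal_coe, ENNReal.ofReal_natCast]
      _ ≤ ENNReal.ofReal (ε * (side (I0 k) : ℝ) ^ α) := ENNReal.ofReal_le_ofReal h2
      _ = _ := by
        rw [ENNReal.ofReal_mul hε'.le, ENNReal.ofReal_coe_nnreal,
          ← ENNReal.ofReal_rpow_of_nonneg (by positivity) (by linarith), ENNReal.ofReal_natCast]
  refine csInf_eq_of_forall_ge_of_forall_gt_exists_lt ⟨1, big 1 (by norm_num)⟩ ?_ fun w hw => ?_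
  · rintro α ⟨h0, h⟩
    by_contra hlt
    have : (1 : ℝ≥0∞) ≤ ⨅ (I : Finset (ℕ × ℕ)) (_ : Valid I),
        (mu I : ℝ≥0∞) / (side I : ℝ≥0∞) ^ α := by
      refine le_iInf₂ fun I _ => ?_
      obtain ⟨d, d1, d2⟩ := lower I
      have d3 : ((d + 1 : ℕ) : ℝ≥0∞) ≤ mu I := by
        rw [← ENat.toENNReal_coe]
        exact ENat.toENNReal_le.2 d2
      have d4 : (side I : ℝ≥0∞) ^ α ≤ ((d + 1 : ℕ) : ℝ≥0∞) := by
        calc (side I : ℝ≥0∞) ^ α ≤ (((d + 1 : ℕ) : ℝ≥0∞) ^ (2 : ℝ)) ^ α :=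
              ENNReal.rpow_le_rpow (by rw [ENNReal.rpow_two]; exact_mod_cast d1) h0.le
          _ = ((d + 1 : ℕ) : ℝ≥0∞) ^ (2 * α) := (ENNReal.rpow_mul _ _ _).symm
          _ ≤ ((d + 1 : ℕ) : ℝ≥0∞) ^ (1 : ℝ) := ENNReal.rpow_le_rpow_of_exponent_le
              (by exact_mod_cast Nat.succ_pos d) (by linarith [not_le.1 hlt])
          _ = _ := ENNReal.rpow_one _
      rw [ENNReal.le_div_iff_mul_le (Or.inr (by
        intro h
        rw [h] at d3
        simp at d3)) (Or.inl (ne_top_of_le_ne_top (ENNReal.natCast_ne_top _) d4)), one_mul]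
      exact d4.trans d3
    rw [h] at this
    simp at this
  · exact ⟨(1 / 2 + w) / 2, big _ (by linarith), by linarith⟩

end Pool.Agent.Results.MP_3b4555_co.Half
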